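import Pool.Agent.W248.RG.Stm

set_option autoImplicit false

namespace Pool.Agent.W399.RG

open Pool.Agent.W248.RG

variable {e m : ℕ} {r : Fin e → ZMod m} {B C : Finset (Fin e → ℕ)}

theorem sub_ei_apply (u : Fin e → ℕ) (i j : Fin e) :
    (u - ei i) j = if j = i then u j - 1 else u j := by
  by_cases hj : j = i
  · subst hj; simp [ei]
  · simp [ei, hj]

theorem below (S : Stair m r B C) {u w : Fin e → ℕ} (hu : u ∈ C) (hw : w ≤ u) (hne : w ≠ u) :
    w ∈ B := by
  have : ∃ i, w i < u i := by
    by_contra hcon
    push Not at hcon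
    exact hne (le_antisymm hw hcon)
  obtain ⟨i, hi⟩ := this
  have h1 := ((S.corner u).1 hu).2 i (by omega)
  refine S.down _ h1 w ?_
  intro j
  rw [sub_ei_apply]
  have := hw j
  by_cases hj : j = i
  · subst hj; simp; omega
  · simp [hj]; exact this

theorem anti (S : Stair m r B C) {u v : Fin e → ℕ} (hu : u ∈ C) (hv : v ∈ C) (huv : u ≤ v) :
    u = v := by
  by_contra hne
  exact ((S.corner u).1 hu).1 (below S hv huv hne)

theorem card_B (S : Stair m r B C) (hm : 0 < m) : B.card ≤ m := by
  have : NeZero m := ⟨by omega⟩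
  have h := Finset.card_le_card_of_injOn (s := B) (t := (Finset.univ : Finset (ZMod m)))
    (res m r) (fun _ _ => Finset.mem_univ _)
    (fun u hu v hv huv => S.inj u hu v hv huv)
  rwa [Finset.card_univ, ZMod.card] at h

theorem res_add (u v : Fin e → ℕ) : res m r (u + v) = res m r u + res m r v := by
  unfold res
  rw [← Finset.sum_add_distrib]
  refine Finset.sum_congr rfl (fun i _ => ?_)
  simp [add_mul]

theorem res_zero : res m r 0 = 0 := by simp [res]

theorem full_res (S : Stair m r B C) {u : Fin e → ℕ} (hu : u ∈ C) (hpos : ∀ i, 0 < u i) :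
    res m r u = 0 := by
  obtain ⟨b, hb, hbu⟩ := S.surj u
  have hb0 : b = 0 := by
    by_contra hne
    have : ∃ i, 0 < b i := by
      by_contra hcon
      push Not at hcon
      apply hne
      funext i
      have := hcon i
      simp; omega
    obtain ⟨i, hi⟩ := this
    have h1 : u - ei i ∈ B := ((S.corner u).1 hu).2 i (hpos i)
    have h2 : b - ei i ∈ B := by
      refine S.down b hb _ (fun j => ?_)
      have h3 := sub_ei_apply b i j
      have h4 : (b - ei i) j ≤ b j := by
        rw [h3]; split_ifs
        · exact Nat.sub_le _ _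
        · exact le_rfl
      exact h4
    have e1 : (u - ei i) + ei i = u := by
      funext j
      have := hpos i
      rw [Pi.add_apply, sub_ei_apply]
      by_cases hj : j = i
      · subst hj; simp [ei]; omega
      · simp [ei, hj]
    have e2 : (b - ei i) + ei i = b := by
      funext j
      rw [Pi.add_apply, sub_ei_apply]
      by_cases hj : j = i
      · subst hj; simp [ei]; omega
      · simp [ei, hj]
    have e3 : res m r (u - ei i) = res m r (b - ei i) := by
      have a1 := res_add (m := m) (r := r) (u - ei i) (ei i)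
      have a2 := res_add (m := m) (r := r) (b - ei i) (ei i)
      rw [e1] at a1
      rw [e2] at a2
      rw [hbu, a1] at a2
      exact add_right_cancel a2
    have e4 := S.inj _ h1 _ h2 e3
    have e5 : u = b := by rw [← e1, ← e2, e4]
    exact ((S.corner u).1 hu).1 (e5 ▸ hb)
  rw [← hbu, hb0, res_zero]

theorem full_eq (S : Stair m r B C) (he : 2 ≤ e) {u v : Fin e → ℕ} (hu : u ∈ C) (hv : v ∈ C)
    (hu0 : ∀ i, 0 < u i) (hv0 : ∀ i, 0 < v i) : u = v := by
  have i0 : Fin e := ⟨0, by omega⟩
  set w : Fin e → ℕ := fun i => min (u i) (v i) with hw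
  have hwpos : ∀ i, 0 < w i := fun i => lt_min (hu0 i) (hv0 i)
  have hwu : w ≤ u := fun i => min_le_left _ _
  have hwv : w ≤ v := fun i => min_le_right _ _
  have k1 : u - w ∈ B := by
    refine below S hu (fun i => by simp) ?_
    intro hcon
    have := congrFun hcon i0
    have h1 := hwpos i0
    have h2 := hu0 i0
    simp only [Pi.sub_apply] at this
    omega
  have k2 : v - w ∈ B := by
    refine below S hv (fun i => by simp) ?_
    intro hcon
    have := congrFun hcon i0
    have h1 := hwpos i0
    have h2 := hv0 i0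
    simp only [Pi.sub_apply] at this
    omega
  have e1 : (u - w) + w = u := by
    funext i
    have : w i ≤ u i := hwu i
    simp only [Pi.add_apply, Pi.sub_apply]
    omega
  have e2 : (v - w) + w = v := by
    funext i
    have : w i ≤ v i := hwv i
    simp only [Pi.add_apply, Pi.sub_apply]
    omega
  have e3 : res m r (u - w) = res m r (v - w) := by
    have a1 := res_add (m := m) (r := r) (u - w) w
    have a2 := res_add (m := m) (r := r) (v - w) w
    rw [e1, full_res S hu hu0] at a1
    rw [e2, full_res S hv hv0, a1] at a2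
    exact add_right_cancel a2
  have e4 := S.inj _ k1 _ k2 e3
  rw [← e1, ← e2, e4]

theorem cardC1 (S : Stair m r B C) (he : 2 ≤ e) :
    (C.filter (fun u => ∀ i, 0 < u i)).card ≤ 1 := by
  rw [Finset.card_le_one]
  intro a ha b hb
  rw [Finset.mem_filter] at ha hb
  exact full_eq S he ha.1 hb.1 ha.2 hb.2

theorem cardCT (S : Stair m r B C) (h : ℕ) (T : Finset (Fin e)) (hT : T ≠ Finset.univ) :
    (C.filter (fun u => ∀ i, i ∈ T ↔ u i ≤ h)).card * h ≤ B.card := by
  obtain ⟨i0, hi0⟩ : ∃ i, i ∉ T := by
    by_contra hcon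
    push Not at hcon
    exact hT (Finset.eq_univ_iff_forall.2 hcon)
  have hcard : (C.filter (fun u => ∀ i, i ∈ T ↔ u i ≤ h)).card * h =
      ((C.filter (fun u => ∀ i, i ∈ T ↔ u i ≤ h)) ×ˢ (Finset.Icc 1 h)).card := by
    rw [Finset.card_product, Nat.card_Icc]
    simp
  rw [hcard]
  refine Finset.card_le_card_of_injOn
    (fun p : (Fin e → ℕ) × ℕ => fun i => if i ∈ T then p.1 i else p.1 i - p.2) ?_ ?_
  · rintro ⟨u, t⟩ hp
    simp only [Finset.coe_product, Set.mem_prod, Finset.mem_coe, Finset.mem_filter,
      Finset.mem_Icc] at hp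
    obtain ⟨⟨hu, hTu⟩, ht1, ht2⟩ := hp
    refine below S hu ?_ ?_
    · intro i
      show (if i ∈ T then u i else u i - t) ≤ u i
      split_ifs <;> omega
    · intro hcon
      have h1 := congrFun hcon i0
      simp only [hi0, if_false] at h1
      have h2 : ¬ u i0 ≤ h := fun hh => hi0 ((hTu i0).2 hh)
      omega
  · rintro ⟨u, t⟩ hp ⟨v, s⟩ hq hpq
    simp only [Finset.coe_product, Set.mem_prod, Finset.mem_coe, Finset.mem_filter,
      Finset.mem_Icc] at hp hq
    obtain ⟨⟨hu, hTu⟩, ht1, ht2⟩ := hp
    obtain ⟨⟨hv, hTv⟩, hs1, hs2⟩ := hq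
    have hpq' : ∀ i, (if i ∈ T then u i else u i - t) = (if i ∈ T then v i else v i - s) :=
      fun i => congrFun hpq i
    have ht1' : 1 ≤ t := ht1
    have ht2' : t ≤ h := ht2
    have hs1' : 1 ≤ s := hs1
    have hs2' : s ≤ h := hs2
    have hTu' : ∀ i, i ∈ T ↔ u i ≤ h := hTu
    have hTv' : ∀ i, i ∈ T ↔ v i ≤ h := hTv
    clear hTu hTv ht1 ht2 hs1 hs2
    rename' ht1' => ht1, ht2' => ht2, hs1' => hs1, hs2' => hs2, hTu' => hTu, hTv' => hTv
    have huv : u = v := by
      rcases le_total t s with hts | hts
      · refine anti S hu hv (fun i => ?_)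
        show u i ≤ v i
        have h1 := hpq' i
        by_cases hi : i ∈ T
        · simp only [hi, if_true] at h1; omega
        · simp only [hi, if_false] at h1
          have h2 : ¬ u i ≤ h := fun hh => hi ((hTu i).2 hh)
          have h3 : ¬ v i ≤ h := fun hh => hi ((hTv i).2 hh)
          omega
      · refine (anti S hv hu (fun i => ?_)).symm
        show v i ≤ u i
        have h1 := hpq' i
        by_cases hi : i ∈ T
        · simp only [hi, if_true] at h1; omega
        · simp only [hi, if_false] at h1
          have h2 : ¬ u i ≤ h := fun hh => hi ((hTu i).2 hh)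
          have h3 : ¬ v i ≤ h := fun hh => hi ((hTv i).2 hh)
          omega
    subst huv
    have h1 := hpq' i0
    simp only [hi0, if_false] at h1
    have h2 : ¬ u i0 ≤ h := fun hh => hi0 ((hTu i0).2 hh)
    have : t = s := by omega
    rw [this]

theorem cardC2 (S : Stair m r B C) (hm : 0 < m) (h : ℕ) :
    (C.filter (fun u => ∃ i, h < u i)).card * h ≤ 2 ^ e * m := by
  classical
  have hsub : C.filter (fun u => ∃ i, h < u i) ⊆
      ((Finset.univ : Finset (Finset (Fin e))).filter (fun T => T ≠ Finset.univ)).biUnion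
        (fun T => C.filter (fun u => ∀ i, i ∈ T ↔ u i ≤ h)) := by
    intro u hu
    rw [Finset.mem_filter] at hu
    obtain ⟨huC, i, hi⟩ := hu
    rw [Finset.mem_biUnion]
    refine ⟨Finset.univ.filter (fun i => u i ≤ h), ?_, ?_⟩
    · rw [Finset.mem_filter]
      refine ⟨Finset.mem_univ _, ?_⟩
      intro hcon
      have : i ∈ Finset.univ.filter (fun i => u i ≤ h) := by rw [hcon]; exact Finset.mem_univ _
      rw [Finset.mem_filter] at this
      omega
    · rw [Finset.mem_filter]
      refine ⟨huC, fun j => ?_⟩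
      simp
  have h1 := (Finset.card_le_card hsub).trans Finset.card_biUnion_le
  calc (C.filter (fun u => ∃ i, h < u i)).card * h
      ≤ (∑ T ∈ (Finset.univ : Finset (Finset (Fin e))).filter (fun T => T ≠ Finset.univ),
          (C.filter (fun u => ∀ i, i ∈ T ↔ u i ≤ h)).card) * h := Nat.mul_le_mul_right _ h1
    _ = ∑ T ∈ (Finset.univ : Finset (Finset (Fin e))).filter (fun T => T ≠ Finset.univ),
          (C.filter (fun u => ∀ i, i ∈ T ↔ u i ≤ h)).card * h := Finset.sum_mul _ _ _
    _ ≤ ∑ _T ∈ (Finset.univ : Finset (Finset (Fin e))).filter (fun T => T ≠ Finset.univ), m := by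
        refine Finset.sum_le_sum (fun T hT => ?_)
        rw [Finset.mem_filter] at hT
        exact (cardCT S h T hT.2).trans (card_B S hm)
    _ = ((Finset.univ : Finset (Finset (Fin e))).filter (fun T => T ≠ Finset.univ)).card * m := by
        rw [Finset.sum_const, smul_eq_mul]
    _ ≤ 2 ^ e * m := by
        refine Nat.mul_le_mul_right _ ?_
        refine (Finset.card_filter_le _ _).trans ?_
        rw [Finset.card_univ, Fintype.card_finset, Fintype.card_fin]

theorem cardC3i (S : Stair m r B C) (he : 2 ≤ e) (h : ℕ) (i : Fin e) :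
    (C.filter (fun u => (∀ j, u j ≤ h) ∧ u i = 0)).card ≤ (h + 1) ^ (e - 2) := by
  classical
  obtain ⟨j, hji⟩ : ∃ j : Fin e, j ≠ i := by
    have : Nontrivial (Fin e) := Fin.nontrivial_iff_two_le.2 he
    exact exists_ne i
  have hcard : (Fintype.piFinset (fun k : Fin e =>
      if k = i ∨ k = j then ({0} : Finset ℕ) else Finset.range (h + 1))).card =
      (h + 1) ^ (e - 2) := by
    rw [Fintype.card_piFinset]
    have h1 : ∀ k : Fin e, (if k = i ∨ k = j then ({0} : Finset ℕ)
        else Finset.range (h + 1)).card = if k ∈ ({i, j} : Finset (Fin e)) then 1 else h + 1 := by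
      intro k
      by_cases hk : k = i ∨ k = j
      · simp [hk]
      · simp [hk]
    rw [Finset.prod_congr rfl (fun k _ => h1 k)]
    rw [Finset.prod_ite]
    rw [Finset.prod_const_one, one_mul, Finset.prod_const]
    congr 1
    have h2 : (Finset.univ.filter (fun k : Fin e => k ∉ ({i, j} : Finset (Fin e)))) =
        Finset.univ \ {i, j} := by
      ext k; simp
    rw [h2, Finset.card_sdiff_of_subset (Finset.subset_univ _), Finset.card_univ, Fintype.card_fin,
      Finset.card_pair (Ne.symm hji)]
  rw [← hcard]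
  refine Finset.card_le_card_of_injOn (fun u => Function.update u j 0) ?_ ?_
  · intro u hu
    simp only [Finset.mem_coe, Finset.mem_filter] at hu
    obtain ⟨huC, hle, hui⟩ := hu
    rw [Finset.mem_coe, Fintype.mem_piFinset]
    intro k
    by_cases hk : k = i ∨ k = j
    · rcases hk with hk | hk
      · subst hk
        simp [Function.update_of_ne (Ne.symm hji), hui]
      · subst hk
        simp
    · push Not at hk
      have := hle k
      simp only [hk.1, hk.2, or_self, if_false, Finset.mem_range,
        Function.update_of_ne hk.2]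
      omega
  · intro u hu v hv huv
    simp only [Finset.mem_coe, Finset.mem_filter] at hu hv
    have hk : ∀ k, k ≠ j → u k = v k := by
      intro k hk
      have := congrFun huv k
      simpa [Function.update_of_ne hk] using this
    rcases le_total (u j) (v j) with hle | hle
    · refine anti S hu.1 hv.1 (fun k => ?_)
      by_cases hkj : k = j
      · subst hkj; exact hle
      · exact (hk k hkj).le
    · refine (anti S hv.1 hu.1 (fun k => ?_)).symm
      by_cases hkj : k = j
      · subst hkj; exact hle
      · exact (hk k hkj).ge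

theorem cardC3 (S : Stair m r B C) (he : 2 ≤ e) (h : ℕ) :
    (C.filter (fun u => (∀ j, u j ≤ h) ∧ ∃ i, u i = 0)).card ≤ e * (h + 1) ^ (e - 2) := by
  classical
  have hsub : C.filter (fun u => (∀ j, u j ≤ h) ∧ ∃ i, u i = 0) ⊆
      (Finset.univ : Finset (Fin e)).biUnion
        (fun i => C.filter (fun u => (∀ j, u j ≤ h) ∧ u i = 0)) := by
    intro u hu
    rw [Finset.mem_filter] at hu
    obtain ⟨huC, hle, i, hi⟩ := hu
    rw [Finset.mem_biUnion]
    exact ⟨i, Finset.mem_univ _, by rw [Finset.mem_filter]; exact ⟨huC, hle, hi⟩⟩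
  refine (Finset.card_le_card hsub).trans (Finset.card_biUnion_le.trans ?_)
  refine (Finset.sum_le_sum (fun i _ => cardC3i S he h i)).trans ?_
  simp

/-- COMB: the number of corners. -/
theorem main : Pool.Agent.W248.RG.S_COMB := by
  classical
  intro e m h r B C he hm _ S
  have hsub : C ⊆ (C.filter (fun u => ∀ i, 0 < u i)) ∪ ((C.filter (fun u => ∃ i, h < u i)) ∪
      (C.filter (fun u => (∀ j, u j ≤ h) ∧ ∃ i, u i = 0))) := by
    intro u hu
    rw [Finset.mem_union, Finset.mem_union, Finset.mem_filter, Finset.mem_filter,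
      Finset.mem_filter]
    by_cases h1 : ∀ i, 0 < u i
    · exact Or.inl ⟨hu, h1⟩
    · by_cases h2 : ∃ i, h < u i
      · exact Or.inr (Or.inl ⟨hu, h2⟩)
      · push Not at h1 h2
        obtain ⟨i, hi⟩ := h1
        exact Or.inr (Or.inr ⟨hu, h2, i, by omega⟩)
  have h0 := (Finset.card_le_card hsub).trans (Finset.card_union_le _ _)
  have h00 := Finset.card_union_le (C.filter (fun u => ∃ i, h < u i))
    (C.filter (fun u => (∀ j, u j ≤ h) ∧ ∃ i, u i = 0))
  have h1 := cardC1 S he
  have h2 := cardC2 S hm h
  have h3 := cardC3 S he h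
  calc C.card * h ≤ (1 + ((C.filter (fun u => ∃ i, h < u i)).card + e * (h + 1) ^ (e - 2))) * h := by
        refine Nat.mul_le_mul_right _ ?_
        omega
    _ = h + (C.filter (fun u => ∃ i, h < u i)).card * h + h * (e * (h + 1) ^ (e - 2)) := by ring
    _ ≤ h + 2 ^ e * m + h * (e * (h + 1) ^ (e - 2)) := by omega

end Pool.Agent.W399.RG
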